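import Pool.Agent.Helper35_WH.Stmt2

set_option autoImplicit false

/-!
# Removing a contractible part beyond a bridge
-/

namespace Pool.Agent.Helper35_WH.H86

variable {I J : Type} (C : Cx I J) {F : Type} [Group F] (ρ : C.A → F) (o : C.V)

/-- A function on the vertices of a complex with a universal labelling, which is constant along
all edges, is constant. -/
theorem conn_of_univ {ρ₂ : C.B → F} (hU : C.Univ ρ ρ₂ o) (f : C.V → Bool)
    (h1 : ∀ e, f (C.s₁ e) = f (C.t₁ e)) (h2 : ∀ e, f (C.s₂ e) = f (C.t₂ e)) (v : C.V) :
    f v = f o := by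
  classical
  have hfl : C.Flat (fun _ : C.A => (1 : ℤˣ)) (fun _ : C.B => (1 : ℤˣ)) := by
    intro q
    simp
  obtain ⟨x, -, hx⟩ := hU ℤˣ (fun _ => 1) (fun _ => 1) hfl
  have e1 := hx (1, fun v => if f v = f o then 1 else -1) ⟨by simp, by
    intro e
    simp only [h1 e, MonoidHom.one_apply]
    split_ifs <;> simp, by
    intro e
    simp only [h2 e, MonoidHom.one_apply]
    split_ifs <;> simp⟩
  have e2 := hx (1, fun _ => 1) ⟨rfl, by
    intro e
    simp, by
    intro e
    simp⟩
  have e3 := congrFun (congrArg Prod.snd (e1.trans e2.symm)) v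
  by_contra hne
  simp only [hne, if_false] at e3
  exact absurd e3 (by decide)

/-- The track relation applied to decidable predicates. -/
theorem track_pred {e e' : C.A} (P : C.A → Prop) (hP : ∀ q, P (C.bot q) ↔ P (C.top q))
    (h : ∀ f : C.A → Bool, (∀ q, f (C.bot q) = f (C.top q)) → f e = f e') : P e ↔ P e' := by
  classical
  have := h (fun x => decide (P x)) (fun q => by simp [hP q])
  simpa using this

end Pool.Agent.Helper35_WH.H86

namespace Pool.Agent.Helper35_WH

open H86

theorem remove (ht : TrivStatement) : RemoveStatement := by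
  classical
  intro I J C F _ ρ o hU hρ hforest t c htq htone hco hcB hcA hfar C' iV iA iB iS o' jV jA jB jS
    rV rA rB rS c1 c2 c3 c4 c5 c6 c7 c8 ho'
  -- colours of the ends of squares
  have cq1 : ∀ q, c (C.s₁ (C.bot q)) = c (C.s₁ (C.top q)) := by
    intro q
    rw [C.h1, C.h3, hcB]
  have cq2 : ∀ q, c (C.t₁ (C.bot q)) = c (C.t₁ (C.top q)) := by
    intro q
    rw [C.h2, C.h4, hcB]
  -- near side connected
  have hnear : ∀ f : C.V → Bool, (∀ e, c (C.s₂ e) = false → f (C.s₂ e) = f (C.t₂ e)) →
      (∀ e, c (C.s₁ e) = false → c (C.t₁ e) = false → f (C.s₁ e) = f (C.t₁ e)) →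
      ∀ v, c v = false → f v = f o := by
    intro f hf2 hf1
    -- near end of an edge
    let ne : C.A → C.V := fun e => if c (C.s₁ e) = false then C.s₁ e else C.t₁ e
    have hne : ∀ e e', t e → t e' → f (ne e) = f (ne e') := by
      intro e e' h1 h2
      have key := track_pred C (fun x => t x → f (ne x) = f (ne e')) (e := e) (e' := e') (by
        intro q
        have hb : t (C.bot q) → f (ne (C.bot q)) = f (ne (C.top q)) := by
          intro hb
          simp only [ne]
          rw [← cq1 q]
          split_ifs with h
          · rw [C.h1, C.h3]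
            apply hf2
            rw [← C.h1]
            exact h
          · rw [C.h2, C.h4]
            apply hf2
            rw [← C.h2]
            have h3 := (hcA (C.bot q)).mpr hb
            cases h4 : c (C.t₁ (C.bot q)) with
            | false => rfl
            | true =>
              rw [h4] at h3
              cases h5 : c (C.s₁ (C.bot q)) with
              | false => exact absurd h5 h
              | true => exact absurd h5 h3
        constructor
        · intro h h'
          rw [← hb ((htq q).mpr h')]
          exact h ((htq q).mpr h')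
        · intro h h'
          rw [hb h']
          exact h ((htq q).mp h')) (htone e e' h1 h2)
      exact key.mpr (fun _ => rfl) h1
    by_cases hex : ∃ e, t e
    · obtain ⟨e₀, he₀⟩ := hex
      intro v hv
      have := conn_of_univ C ρ o hU (fun v => if c v = false then f v else f (ne e₀)) (by
        intro e
        by_cases hte : t e
        · have h3 := (hcA e).mpr hte
          have h4 := hne e e₀ hte he₀
          simp only [ne] at h4 ⊢
          cases h5 : c (C.s₁ e) with
          | false =>
            cases h6 : c (C.t₁ e) with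
            | false => rw [h5, h6] at h3; exact absurd rfl h3
            | true =>
              simp only [h5, if_true] at h4
              simpa using h4
          | true =>
            cases h6 : c (C.t₁ e) with
            | false =>
              simp only [h5] at h4
              simpa using h4.symm
            | true => rw [h5, h6] at h3; exact absurd rfl h3
        · have h3 : c (C.s₁ e) = c (C.t₁ e) := by
            by_contra h
            exact hte ((hcA e).mp h)
          rw [← h3]
          split_ifs with h
          · exact hf1 e h (by rw [← h3]; exact h)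
          · rfl) (by
        intro e
        rw [← hcB e]
        split_ifs with h
        · exact hf2 e h
        · rfl) v
      simp only [hv, hco, if_true] at this
      exact this
    · have hcc : ∀ v, c v = false := by
        intro v
        rw [conn_of_univ C ρ o hU c (by
          intro e
          by_contra h
          exact hex ⟨e, (hcA e).mp h⟩) hcB v]
        exact hco
      intro v hv
      exact conn_of_univ C ρ o hU f (fun e => hf1 e (hcc _) (hcc _)) (fun e => hf2 e (hcc _)) v
  -- tracks
  have hr : ∀ L : Finset C.A, (∀ e ∈ L, t e ∨ (c (C.s₁ e) = true ∧ c (C.t₁ e) = true)) →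
      ∃ r : C.V → F, (∀ v, c v = false → r v = 1) ∧ (∀ e, r (C.s₂ e) = r (C.t₂ e)) ∧
        ∀ e, (∃ e₀ ∈ L, ∀ f : C.A → Bool, (∀ q, f (C.bot q) = f (C.top q)) → f e = f e₀) →
          ρ e = (r (C.s₁ e))⁻¹ * r (C.t₁ e) := by
    intro L
    induction L using Finset.induction_on with
    | empty =>
      intro _
      refine ⟨fun _ => 1, fun _ _ => rfl, fun _ => rfl, ?_⟩
      rintro e ⟨e₀, he₀, -⟩
      exact absurd he₀ (Finset.notMem_empty _)
    | insert e₀ L _ ih =>
      intro hL
      obtain ⟨r, hr1, hr2, hr3⟩ := ih (fun e he => hL e (Finset.mem_insert_of_mem he))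
      by_cases hin : ∃ e₁ ∈ L, ∀ f : C.A → Bool, (∀ q, f (C.bot q) = f (C.top q)) → f e₀ = f e₁
      · refine ⟨r, hr1, hr2, ?_⟩
        rintro e ⟨e₂, he₂, h⟩
        rcases Finset.mem_insert.mp he₂ with rfl | he₂
        · obtain ⟨e₁, he₁, h1⟩ := hin
          exact hr3 e ⟨e₁, he₁, fun f hf => (h f hf).trans (h1 f hf)⟩
        · exact hr3 e ⟨e₂, he₂, h⟩
      · -- the colouring
        obtain ⟨d, hd0, hdB, hdA⟩ : ∃ d : C.V → Bool, (∀ v, c v = false → d v = false) ∧
            (∀ e, d (C.s₂ e) = d (C.t₂ e)) ∧ ∀ e, d (C.s₁ e) ≠ d (C.t₁ e) ↔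
              ∀ f : C.A → Bool, (∀ q, f (C.bot q) = f (C.top q)) → f e = f e₀ := by
          rcases hL e₀ (Finset.mem_insert_self _ _) with hte | ⟨hs, ht'⟩
          · refine ⟨c, fun v h => h, hcB, fun e => ?_⟩
            rw [hcA]
            constructor
            · intro h f hf
              exact htone e e₀ h hte f hf
            · intro h
              exact (track_pred C t htq h).mpr hte
          · obtain ⟨d, hdB, hdA⟩ := hfar e₀ hs ht'
            have hnd : ∀ v, c v = false → d v = d o := by
              apply hnear d (fun e _ => hdB e)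
              intro e h1 h2
              by_contra hne
              have h3 := track_pred C (fun x => c (C.s₁ x) = true) (by
                intro q
                rw [cq1 q]) ((hdA e).mp hne)
              have h4 := h3.mpr hs
              rw [h1] at h4
              exact absurd h4 (by decide)
            refine ⟨fun v => xor (d v) (d o), ?_, ?_, ?_⟩
            · intro v hv
              change xor (d v) (d o) = false
              rw [hnd v hv]
              simp
            · intro e
              change xor (d (C.s₂ e)) (d o) = xor (d (C.t₂ e)) (d o)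
              rw [hdB e]
            · intro e
              rw [← hdA e]
              change xor (d (C.s₁ e)) (d o) ≠ xor (d (C.t₁ e)) (d o) ↔ d (C.s₁ e) ≠ d (C.t₁ e)
              cases d (C.s₁ e) <;> cases d (C.t₁ e) <;> cases d o <;> simp
        have dq1 : ∀ q, d (C.s₁ (C.bot q)) = d (C.s₁ (C.top q)) := by
          intro q
          rw [C.h1, C.h3, hdB]
        have rq1 : ∀ q, r (C.s₁ (C.bot q)) = r (C.s₁ (C.top q)) := by
          intro q
          rw [C.h1, C.h3, hr2]
        have rq2 : ∀ q, r (C.t₁ (C.bot q)) = r (C.t₁ (C.top q)) := by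
          intro q
          rw [C.h2, C.h4, hr2]
        let G : C.A → F := fun e => if d (C.s₁ e) = true then
          r (C.t₁ e) * (ρ e)⁻¹ * (r (C.s₁ e))⁻¹ else r (C.s₁ e) * ρ e * (r (C.t₁ e))⁻¹
        have hG : ∀ q, G (C.bot q) = G (C.top q) := by
          intro q
          simp only [G]
          rw [dq1, rq1, rq2, hρ]
        refine ⟨fun v => if d v = true then G e₀ * r v else r v, ?_, ?_, ?_⟩
        · intro v hv
          simp only [hd0 v hv]
          simpa using hr1 v hv
        · intro e
          simp only
          rw [hdB e, hr2 e]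
        · rintro e ⟨e₂, he₂, h⟩
          by_cases htr : ∀ f : C.A → Bool, (∀ q, f (C.bot q) = f (C.top q)) → f e = f e₀
          · have hGe : G e = G e₀ := (track_pred C (fun x => G x = G e₀) (fun q => by
              rw [hG q]) htr).mpr rfl
            have hde := (hdA e).mpr htr
            rw [← hGe]
            simp only [G]
            cases h5 : d (C.s₁ e) with
            | false =>
              cases h6 : d (C.t₁ e) with
              | false => rw [h5, h6] at hde; exact absurd rfl hde
              | true => simp
            | true =>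
              cases h6 : d (C.t₁ e) with
              | false => simp
              | true => rw [h5, h6] at hde; exact absurd rfl hde
          · have hde : d (C.s₁ e) = d (C.t₁ e) := by
              by_contra hne
              exact htr ((hdA e).mp hne)
            rcases Finset.mem_insert.mp he₂ with rfl | he₂
            · exact absurd h htr
            · have := hr3 e ⟨e₂, he₂, h⟩
              simp only
              rw [← hde]
              split_ifs with h7
              · rw [this]
                group
              · exact this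
  obtain ⟨r, hr1, hr2, hr3⟩ := hr (Finset.univ.filter fun e => t e ∨
    (c (C.s₁ e) = true ∧ c (C.t₁ e) = true)) (by
      intro e he
      simpa using he)
  have hr4 : ∀ e, ¬ (c (C.s₁ e) = false ∧ c (C.t₁ e) = false) →
      ρ e = (r (C.s₁ e))⁻¹ * r (C.t₁ e) := by
    intro e he
    apply hr3 e ⟨e, ?_, fun _ _ => rfl⟩
    simp only [Finset.mem_filter, Finset.mem_univ, true_and]
    cases h5 : c (C.s₁ e) with
    | false =>
      cases h6 : c (C.t₁ e) with
      | false => exact absurd ⟨h5, h6⟩ he
      | true =>
        left
        rw [← hcA]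
        rw [h5, h6]
        decide
    | true =>
      cases h6 : c (C.t₁ e) with
      | false =>
        left
        rw [← hcA]
        rw [h5, h6]
        decide
      | true => right; exact ⟨rfl, rfl⟩
  -- main proof
  intro M _ μ₁' μ₂' hflat
  -- general facts on near vertices
  have hcs1 : ∀ e', c (C.s₁ (iA e')) = false := fun e' => ((rA _).mp ⟨e', rfl⟩).1
  have hct1 : ∀ e', c (C.t₁ (iA e')) = false := fun e' => ((rA _).mp ⟨e', rfl⟩).2
  have hcs2 : ∀ e', c (C.s₂ (iB e')) = false := fun e' => ((rB _).mp ⟨e', rfl⟩).1
  have hct2 : ∀ e', c (C.t₂ (iB e')) = false := fun e' => ((rB _).mp ⟨e', rfl⟩).2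
  apply existsUnique_of_exists_of_unique
  · -- existence
    obtain ⟨p0, hp0⟩ := ht C.V C.B C.s₂ C.t₂ hforest M
      (fun e => if h : ∃ e', iB e' = e then μ₂' h.choose else 1)
    have hp0' : ∀ e', μ₂' e' = (p0 (C.s₂ (iB e')))⁻¹ * p0 (C.t₂ (iB e')) := by
      intro e'
      have h := hp0 (iB e')
      have hex : ∃ e'', iB e'' = iB e' := ⟨e', rfl⟩
      rw [dif_pos hex] at h
      rw [← h]
      congr 1
      exact jB hex.choose_spec.symm
    let p1 : C.V → M := fun v => if c v = true then 1 else p0 v
    let μ₁ : C.A → M := fun e => if h : ∃ e', iA e' = e then μ₁' h.choose else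
      (p1 (C.s₁ e))⁻¹ * p1 (C.t₁ e)
    let μ₂ : C.B → M := fun e => (p1 (C.s₂ e))⁻¹ * p1 (C.t₂ e)
    have hμ₁ : ∀ e', μ₁ (iA e') = μ₁' e' := by
      intro e'
      have hex : ∃ e'', iA e'' = iA e' := ⟨e', rfl⟩
      simp only [μ₁]
      rw [dif_pos hex]
      congr 1
      exact jA hex.choose_spec
    have hμ₁' : ∀ e, (¬ ∃ e', iA e' = e) → μ₁ e = (p1 (C.s₁ e))⁻¹ * p1 (C.t₁ e) := by
      intro e he
      simp only [μ₁]
      rw [dif_neg he]
    have hμ₂ : ∀ e', μ₂ (iB e') = μ₂' e' := by
      intro e'
      simp only [μ₂, p1]
      rw [hcs2, hct2]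
      simp [hp0' e']
    have hfl : C.Flat μ₁ μ₂ := by
      intro q
      by_cases hq : ∃ q', iS q' = q
      · obtain ⟨q', rfl⟩ := hq
        rw [← c5, ← c6, ← c7, ← c8, hμ₁, hμ₁, hμ₂, hμ₂]
        exact hflat q'
      · have hb : ¬ ∃ e', iA e' = C.bot q := by
          rw [rA, ← rS]
          exact hq
        have htp : ¬ ∃ e', iA e' = C.top q := by
          rw [rA, ← cq1, ← cq2, ← rS]
          exact hq
        rw [hμ₁' _ hb, hμ₁' _ htp]
        simp only [μ₂]
        rw [C.h1, C.h2, C.h3, C.h4]
        group
    obtain ⟨x, ⟨hx0, hx1, hx2⟩, -⟩ := hU M μ₁ μ₂ hfl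
    refine ⟨(x.1, fun v => x.2 (iV v)), ?_, ?_, ?_⟩
    · simp only
      rw [ho']
      exact hx0
    · intro e'
      simp only
      rw [← hμ₁, hx1, c1, c2]
    · intro e'
      simp only
      rw [← hμ₂, hx2, c3, c4]
  · -- uniqueness
    rintro ⟨g₁, p₁⟩ ⟨g₂, p₂⟩ ⟨a0, a1, a2⟩ ⟨b0, b1, b2⟩
    simp only at a0 a1 a2 b0 b1 b2
    -- the quotient of the two gauges on the near side
    let nv : ∀ v : C.V, c v = false → C'.V := fun v hv => ((rV v).mpr hv).choose
    have hnv : ∀ v hv, iV (nv v hv) = v := fun v hv => ((rV v).mpr hv).choose_spec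
    have hnv' : ∀ v' hv, nv (iV v') hv = v' := fun v' hv => jV (hnv _ hv)
    let P₁ : C.V → M := fun v => if h : c v = false then p₁ (nv v h) else 1
    let P₂ : C.V → M := fun v => if h : c v = false then p₂ (nv v h) else 1
    have hP₁ : ∀ v', P₁ (iV v') = p₁ v' := by
      intro v'
      have h : c (iV v') = false := (rV _).mp ⟨v', rfl⟩
      simp only [P₁]
      rw [dif_pos h, hnv' v' h]
    have hP₂ : ∀ v', P₂ (iV v') = p₂ v' := by
      intro v'
      have h : c (iV v') = false := (rV _).mp ⟨v', rfl⟩
      simp only [P₂]
      rw [dif_pos h, hnv' v' h]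
    let Q : C.V → M := fun v => P₂ v * (P₁ v)⁻¹
    have hQB : ∀ e, c (C.s₂ e) = false → Q (C.s₂ e) = Q (C.t₂ e) := by
      intro e he
      have het : c (C.t₂ e) = false := by rw [← hcB]; exact he
      obtain ⟨e', rfl⟩ := (rB e).mpr ⟨he, het⟩
      have h1 := a2 e'
      have h2 := b2 e'
      rw [h1] at h2
      simp only [Q]
      rw [← c3, ← c4, hP₁, hP₁, hP₂, hP₂]
      simp only [map_one, mul_one] at h2
      have h4 : (p₁ (C'.t₂ e'))⁻¹ * p₁ (C'.s₂ e') = (p₂ (C'.t₂ e'))⁻¹ * p₂ (C'.s₂ e') := by
        have h5 := congrArg (fun z => z⁻¹) h2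
        simpa [mul_inv_rev] using h5
      rw [mul_inv_eq_iff_eq_mul, mul_assoc, h4]
      group
    have hQA : ∀ e, c (C.s₁ e) = false → c (C.t₁ e) = false →
        Q (C.t₁ e) = (g₂ (ρ e))⁻¹ * Q (C.s₁ e) * g₁ (ρ e) := by
      intro e he het
      obtain ⟨e', rfl⟩ := (rA e).mpr ⟨he, het⟩
      have h1 := a1 e'
      have h2 := b1 e'
      rw [h1] at h2
      simp only [Q]
      rw [← c1, ← c2, hP₁, hP₁, hP₂, hP₂]
      have h3 : p₂ (C'.t₁ e') = (g₂ (ρ (iA e')))⁻¹ * p₂ (C'.s₁ e') *
          ((p₁ (C'.s₁ e'))⁻¹ * g₁ (ρ (iA e')) * p₁ (C'.t₁ e')) := by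
        rw [h2]
        group
      rw [h3]
      group
    -- value at the near ends of the track
    let ne : C.A → C.V := fun e => if c (C.s₁ e) = false then C.s₁ e else C.t₁ e
    have hne : ∀ e e', t e → t e' → Q (ne e) = Q (ne e') := by
      intro e e' h1 h2
      have key := track_pred C (fun x => t x → Q (ne x) = Q (ne e')) (e := e) (e' := e') (by
        intro q
        have hb : t (C.bot q) → Q (ne (C.bot q)) = Q (ne (C.top q)) := by
          intro hb
          simp only [ne]
          rw [← cq1 q]
          split_ifs with h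
          · rw [C.h1, C.h3]
            apply hQB
            rw [← C.h1]
            exact h
          · rw [C.h2, C.h4]
            apply hQB
            rw [← C.h2]
            have h3 := (hcA (C.bot q)).mpr hb
            cases h4 : c (C.t₁ (C.bot q)) with
            | false => rfl
            | true =>
              rw [h4] at h3
              cases h5 : c (C.s₁ (C.bot q)) with
              | false => exact absurd h5 h
              | true => exact absurd h5 h3
        constructor
        · intro h h'
          rw [← hb ((htq q).mpr h')]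
          exact h ((htq q).mpr h')
        · intro h h'
          rw [hb h']
          exact h ((htq q).mp h')) (htone e e' h1 h2)
      exact key.mpr (fun _ => rfl) h1
    obtain ⟨a, ha⟩ : ∃ a : M, ∀ e, t e → Q (ne e) = a := by
      by_cases hex : ∃ e, t e
      · obtain ⟨e₀, he₀⟩ := hex
        exact ⟨Q (ne e₀), fun e he => hne e e₀ he he₀⟩
      · exact ⟨1, fun e he => absurd ⟨e, he⟩ hex⟩
    let Q' : C.V → M := fun v => if c v = false then Q v else (g₂ (r v))⁻¹ * a * g₁ (r v)
    have hQ'B : ∀ e, Q' (C.s₂ e) = Q' (C.t₂ e) := by
      intro e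
      simp only [Q']
      rw [← hcB e]
      split_ifs with h
      · exact hQB e h
      · rw [hr2 e]
    have hQ'A : ∀ e, Q' (C.t₁ e) = (g₂ (ρ e))⁻¹ * Q' (C.s₁ e) * g₁ (ρ e) := by
      intro e
      simp only [Q']
      cases h5 : c (C.s₁ e) with
      | false =>
        cases h6 : c (C.t₁ e) with
        | false =>
          simp only [if_true]
          exact hQA e h5 h6
        | true =>
          have hte : t e := by
            rw [← hcA, h5, h6]
            decide
          have h7 := ha e hte
          simp only [ne, h5, if_true] at h7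
          have h8 := hr4 e (by rw [h6]; simp)
          rw [hr1 _ h5, inv_one, one_mul] at h8
          simp only [if_true, Bool.true_eq_false, if_false]
          rw [h7, h8]
      | true =>
        cases h6 : c (C.t₁ e) with
        | false =>
          have hte : t e := by
            rw [← hcA, h5, h6]
            decide
          have h7 := ha e hte
          simp only [ne, h5, Bool.true_eq_false, if_false] at h7
          have h8 := hr4 e (by rw [h5]; simp)
          rw [hr1 _ h6, mul_one] at h8
          simp only [if_true, Bool.true_eq_false, if_false]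
          rw [h7, h8, map_inv, map_inv]
          group
        | true =>
          have h8 := hr4 e (by rw [h5]; simp)
          simp only [Bool.true_eq_false, if_false]
          rw [h8, map_mul, map_mul, map_inv, map_inv]
          group
    -- two solutions on `C`
    have hfl : C.Flat (fun e => (P₁ (C.s₁ e))⁻¹ * g₁ (ρ e) * P₁ (C.t₁ e))
        (fun e => (P₁ (C.s₂ e))⁻¹ * g₁ 1 * P₁ (C.t₂ e)) := by
      intro q
      simp only
      rw [C.h1, C.h2, C.h3, C.h4, hρ, map_one]
      group
    obtain ⟨x, -, hx⟩ := hU M _ _ hfl
    have e1 := hx (g₁, P₁) ⟨by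
      simp only
      rw [← ho', hP₁, a0], fun e => rfl, fun e => rfl⟩
    have e2 := hx (g₂, fun v => Q' v * P₁ v) ⟨by
      simp only [Q', Q]
      rw [if_pos hco, ← ho', hP₂, hP₁, a0, b0]
      simp, by
      intro e
      simp only
      rw [hQ'A e]
      group, by
      intro e
      simp only
      rw [hQ'B e, map_one, map_one]
      group⟩
    have e3 := e1.trans e2.symm
    have e4 : g₁ = g₂ := congrArg Prod.fst e3
    have e5 : P₁ = fun v => Q' v * P₁ v := congrArg Prod.snd e3
    refine Prod.ext e4 ?_
    funext v'
    have e6 := congrFun e5 (iV v')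
    have h : c (iV v') = false := (rV _).mp ⟨v', rfl⟩
    simp only [Q', Q] at e6
    rw [if_pos h, hP₁, hP₂] at e6
    simpa using e6

end Pool.Agent.Helper35_WH
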