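import Pool.Agent.Helper86_WH.REMOVE

set_option autoImplicit false

/-!
# Removing an unvisited track
-/

namespace Pool.Agent.Helper35_WH.H86

/-- The label of a path with respect to a labelling by elements of a group. -/
theorem path_prod {V E M F : Type} [Group M] [Group F] (s t : E → V) (ρ : E → F) (μ : E → M)
    (h : F →* M) (p : V → M) (hμ : ∀ e, μ e = (p (s e))⁻¹ * h (ρ e) * p (t e)) :
    ∀ (L : List (E × Bool)) (u w : V), IsPath s t u L w →
      (L.map fun x => if x.2 then μ x.1 else (μ x.1)⁻¹).prod =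
        (p u)⁻¹ * h ((L.map fun x => if x.2 then ρ x.1 else (ρ x.1)⁻¹).prod) * p w := by
  intro L
  induction L with
  | nil =>
    intro u w hp
    have hp' : u = w := hp
    subst hp'
    simp
  | cons x L ih =>
    intro u w hp
    obtain ⟨e, b⟩ := x
    obtain ⟨h1, h2⟩ := hp
    subst h1
    have h3 := ih _ _ h2
    rw [List.map_cons, List.prod_cons, h3, List.map_cons, List.prod_cons, _root_.map_mul]
    cases b with
    | true =>
      simp only [if_true]
      rw [hμ e]
      group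
    | false =>
      simp only [Bool.false_eq_true, if_false]
      rw [hμ e, _root_.map_inv]
      group

/-- The element read along a path. -/
theorem word_prod {E α F : Type} [Group F] (l : E → α) (φ : FreeGroup α →* F) :
    ∀ L : List (E × Bool), φ (FreeGroup.mk (readW l L)) =
      (L.map fun x => if x.2 then φ (FreeGroup.of (l x.1)) else
        (φ (FreeGroup.of (l x.1)))⁻¹).prod := by
  intro L
  induction L with
  | nil =>
    simp only [readW, List.map_nil, List.prod_nil]
    exact _root_.map_one φ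
  | cons x L ih =>
    obtain ⟨e, b⟩ := x
    have h1 : FreeGroup.mk (readW l ((e, b) :: L)) =
        FreeGroup.mk [(l e, b)] * FreeGroup.mk (readW l L) := by
      rw [FreeGroup.mul_mk]
      rfl
    rw [h1, _root_.map_mul, ih, List.map_cons, List.prod_cons]
    congr 1
    cases b with
    | true => rfl
    | false =>
      simp only [Bool.false_eq_true, if_false]
      rw [← _root_.map_inv]
      rfl

theorem path_const {V E M : Type} (s t : E → V) (p : V → M) (hp : ∀ e, p (s e) = p (t e)) :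
    ∀ (L : List (E × Bool)) (u w : V), IsPath s t u L w → p u = p w := by
  intro L
  induction L with
  | nil =>
    intro u w h
    have h' : u = w := h
    rw [h']
  | cons x L ih =>
    intro u w h
    obtain ⟨e, b⟩ := x
    obtain ⟨h1, h2⟩ := h
    rw [h1, ← ih _ _ h2]
    cases b with
    | true => simpa using hp e
    | false => simpa using (hp e).symm

section track

variable {I J : Type} (C : Cx I J)

theorem track_refl (e : C.A) : C.Track e e := fun _ _ => rfl

theorem track_symm {e e' : C.A} (h : C.Track e e') : C.Track e' e := fun f hf => (h f hf).symm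

theorem track_trans {e e' e'' : C.A} (h : C.Track e e') (h' : C.Track e' e'') : C.Track e e'' :=
  fun f hf => (h f hf).trans (h' f hf)

/-- The equivalence relation given by the tracks. -/
def trackS : Setoid C.A := ⟨C.Track, ⟨track_refl C, track_symm C, track_trans C⟩⟩

theorem track_bot_top (q : C.S) : C.Track (C.bot q) (C.top q) := fun _ hf => hf q

theorem track_label {e e' : C.A} (h : C.Track e e') : C.l₁ e = C.l₁ e' :=
  (track_pred C (fun x => C.l₁ x = C.l₁ e') (fun q => by rw [C.h5]) h).mpr rfl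

end track

theorem filling_equiv {H H' : Type} [Group H] [Group H'] (φ : H ≃* H') {v : H} (hv : Filling v) :
    Filling (φ v) := by
  intro J _ e t ht
  apply hv J (φ.trans e) t
  exact ht

/-- An unvisited track is a bridge. -/
theorem bridge (h8 : NonBridgeStatement) {n : ℕ} {X Y : List (Lt n)} (m : Model n X Y)
    (hX : Filling (FreeGroup.mk X)) (e : m.C.A)
    (he : ∀ e' b, (e', b) ∈ m.hp → ¬ m.C.Track e e') :
    ∃ d : m.C.V → Bool, (∀ e', d (m.C.s₂ e') = d (m.C.t₂ e')) ∧
      ∀ e', d (m.C.s₁ e') ≠ d (m.C.t₁ e') ↔ m.C.Track e' e := by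
  classical
  by_contra hno
  -- a function which is constant along vertical edges and the other tracks is constant
  have hconst : ∀ f : m.C.V → Bool, (∀ e', f (m.C.s₂ e') = f (m.C.t₂ e')) →
      (∀ e', ¬ m.C.Track e' e → f (m.C.s₁ e') = f (m.C.t₁ e')) → ∀ u w, f u = f w := by
    intro f hf2 hf1
    by_cases hall : f (m.C.s₁ e) = f (m.C.t₁ e)
    · have hf : ∀ e', f (m.C.s₁ e') = f (m.C.t₁ e') := by
        intro e'
        by_cases htr : m.C.Track e' e
        · exact (track_pred m.C (fun x => f (m.C.s₁ x) = f (m.C.t₁ x)) (fun q => by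
            rw [m.C.h1, m.C.h2, m.C.h3, m.C.h4, hf2, hf2]) htr).mpr hall
        · exact hf1 e' htr
      intro u w
      rw [conn_of_univ m.C _ m.w0 m.univ f hf hf2 u, conn_of_univ m.C _ m.w0 m.univ f hf hf2 w]
    · exfalso
      apply hno
      refine ⟨f, hf2, fun e' => ⟨fun h => ?_, fun h => ?_⟩⟩
      · by_contra h'
        exact h (hf1 e' h')
      · intro h'
        apply hall
        exact (track_pred m.C (fun x => f (m.C.s₁ x) = f (m.C.t₁ x)) (fun q => by
            rw [m.C.h1, m.C.h2, m.C.h3, m.C.h4, hf2, hf2]) h).mp h'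
  let T := Quotient (trackS m.C)
  have : Fintype T := Quotient.fintype _
  let e0 : m.C.V → m.C.V → Prop := fun u w => ∃ b : m.C.B, m.C.s₂ b = u ∧ m.C.t₂ b = w
  let inc : T → m.C.V → m.C.V → Prop := fun τ u w =>
    ∃ a : m.C.A, (Quotient.mk (trackS m.C) a : T) = τ ∧ m.C.s₁ a = u ∧ m.C.t₁ a = w
  let ρ : T → m.F := Quotient.lift (s := trackS m.C) (fun a => m.eX (FreeGroup.of (m.C.l₁ a)))
    (fun a b h => by
      have h' : m.C.Track a b := h
      change m.eX (FreeGroup.of (m.C.l₁ a)) = m.eX (FreeGroup.of (m.C.l₁ b))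
      rw [track_label m.C h'])
  have hρ : ∀ a : m.C.A, ρ (Quotient.mk (trackS m.C) a) = m.eX (FreeGroup.of (m.C.l₁ a)) :=
    fun _ => rfl
  have hiff : ∀ (M : Type) [Group M] (μ : T → M) (x : (m.F →* M) × (m.C.V → M)),
      (x.2 m.w0 = 1 ∧ (∀ u w, e0 u w → x.2 u = x.2 w) ∧
        ∀ t u w, inc t u w → μ t = (x.2 u)⁻¹ * x.1 (ρ t) * x.2 w) ↔
      (x.2 m.w0 = 1 ∧
      (∀ a, μ (Quotient.mk (trackS m.C) a) =
        (x.2 (m.C.s₁ a))⁻¹ * x.1 (m.eX (FreeGroup.of (m.C.l₁ a))) * x.2 (m.C.t₁ a)) ∧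
      (∀ b, (1 : M) = (x.2 (m.C.s₂ b))⁻¹ * x.1 1 * x.2 (m.C.t₂ b))) := by
    intro M _ μ x
    constructor
    · rintro ⟨h0, h1, h2⟩
      refine ⟨h0, fun a => ?_, fun b => ?_⟩
      · rw [← hρ]
        exact h2 _ _ _ ⟨a, rfl, rfl, rfl⟩
      · rw [_root_.map_one, mul_one, h1 _ _ ⟨b, rfl, rfl⟩, inv_mul_cancel]
    · rintro ⟨h0, h1, h2⟩
      refine ⟨h0, ?_, ?_⟩
      · rintro u w ⟨b, rfl, rfl⟩
        have := h2 b
        rw [_root_.map_one, mul_one] at this
        exact (inv_mul_eq_one.mp this.symm)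
      · rintro t u w ⟨a, rfl, rfl, rfl⟩
        rw [hρ]
        exact h1 a
  refine h8 m.C.V T m.F e0 inc ρ m.w0 ?_ ?_ ?_ (Quotient.mk (trackS m.C) e)
    (m.eX (FreeGroup.mk X)) ?_ ?_ (filling_equiv m.eX hX)
  · intro t
    obtain ⟨a, rfl⟩ := Quotient.exists_rep t
    exact ⟨_, _, a, rfl, rfl, rfl⟩
  · rintro t u w u' w' ⟨a, ha, rfl, rfl⟩ ⟨a', ha', rfl, rfl⟩
    have htr : m.C.Track a a' := Quotient.exact (ha.trans ha'.symm)
    constructor
    · refine (track_pred m.C (fun x => Relation.EqvGen e0 (m.C.s₁ x) (m.C.s₁ a')) (fun q => ?_)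
        htr).mpr (Relation.EqvGen.refl _)
      have h1 : Relation.EqvGen e0 (m.C.s₁ (m.C.bot q)) (m.C.s₁ (m.C.top q)) := by
        rw [m.C.h1, m.C.h3]
        exact Relation.EqvGen.rel _ _ ⟨_, rfl, rfl⟩
      exact ⟨fun h => (h1.symm _ _).trans _ _ _ h, fun h => h1.trans _ _ _ h⟩
    · refine (track_pred m.C (fun x => Relation.EqvGen e0 (m.C.t₁ x) (m.C.t₁ a')) (fun q => ?_)
        htr).mpr (Relation.EqvGen.refl _)
      have h1 : Relation.EqvGen e0 (m.C.t₁ (m.C.bot q)) (m.C.t₁ (m.C.top q)) := by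
        rw [m.C.h2, m.C.h4]
        exact Relation.EqvGen.rel _ _ ⟨_, rfl, rfl⟩
      exact ⟨fun h => (h1.symm _ _).trans _ _ _ h, fun h => h1.trans _ _ _ h⟩
  · intro M _ μ
    refine (existsUnique_congr (hiff M μ)).mpr ?_
    apply m.univ M (fun a => μ (Quotient.mk (trackS m.C) a)) (fun _ => 1)
    intro q
    simp only [mul_one, one_mul]
    congr 1
    exact Quotient.sound (track_bot_top m.C q)
  · intro f hf0 hft
    apply hconst f
    · intro b
      exact hf0 _ _ ⟨b, rfl, rfl⟩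
    · intro a ha
      refine hft (Quotient.mk (trackS m.C) a) ?_ _ _ ⟨a, rfl, rfl, rfl⟩
      intro h
      exact ha (Quotient.exact h)
  · intro M _ μ μ' x x' hx hx' hμ
    have hval : ∀ (μ : T → M) (x : (m.F →* M) × (m.C.V → M)),
        (x.2 m.w0 = 1 ∧ (∀ u w, e0 u w → x.2 u = x.2 w) ∧
          ∀ t u w, inc t u w → μ t = (x.2 u)⁻¹ * x.1 (ρ t) * x.2 w) →
        x.1 (m.eX (FreeGroup.mk X)) = (m.hp.map fun y => if y.2 then
          μ (Quotient.mk (trackS m.C) y.1) else (μ (Quotient.mk (trackS m.C) y.1))⁻¹).prod := by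
      intro μ x hx
      obtain ⟨h0, h1, h2⟩ := (hiff M μ x).mp hx
      have h3 := path_prod m.C.s₁ m.C.t₁ (fun a => m.eX (FreeGroup.of (m.C.l₁ a)))
        (fun a => μ (Quotient.mk (trackS m.C) a)) x.1 x.2 h1 m.hp m.w0 m.w1 m.hp_path
      have h4 : x.2 m.w1 = x.2 m.w0 := path_const m.C.s₂ m.C.t₂ x.2
        (fun b => hx.2.1 _ _ ⟨b, rfl, rfl⟩) m.vp m.w1 m.w0 m.vp_path
      rw [h4, h0, inv_one, one_mul, mul_one] at h3
      rw [h3]
      congr 1
      have h5 := word_prod m.C.l₁ m.eX.toMonoidHom m.hp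
      rw [m.hp_read] at h5
      exact h5
    rw [hval μ x hx, hval μ' x' hx']
    congr 1
    apply List.map_congr_left
    rintro ⟨a, b⟩ hab
    have : μ (Quotient.mk (trackS m.C) a) = μ' (Quotient.mk (trackS m.C) a) := by
      apply hμ
      intro h
      exact he a b hab (track_symm m.C (Quotient.exact h))
    simp only
    rw [this]

/-- The full subcomplex on the near side of a colouring. -/
def subCx {I J : Type} (C : Cx I J) (c : C.V → Bool) (hc : ∀ e, c (C.s₂ e) = c (C.t₂ e)) :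
    Cx I J where
  V := {v : C.V // c v = false}
  A := {e : C.A // c (C.s₁ e) = false ∧ c (C.t₁ e) = false}
  B := {e : C.B // c (C.s₂ e) = false ∧ c (C.t₂ e) = false}
  S := {q : C.S // c (C.s₁ (C.bot q)) = false ∧ c (C.t₁ (C.bot q)) = false}
  s₁ e := ⟨C.s₁ e.1, e.2.1⟩
  t₁ e := ⟨C.t₁ e.1, e.2.2⟩
  l₁ e := C.l₁ e.1
  s₂ e := ⟨C.s₂ e.1, e.2.1⟩
  t₂ e := ⟨C.t₂ e.1, e.2.2⟩
  l₂ e := C.l₂ e.1
  bot q := ⟨C.bot q.1, q.2⟩
  top q := ⟨C.top q.1, by
    rw [C.h3, C.h4, ← hc, ← hc, ← C.h1, ← C.h2]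
    exact q.2⟩
  lef q := ⟨C.lef q.1, by
    rw [← hc, ← C.h1]
    exact ⟨q.2.1, q.2.1⟩⟩
  rig q := ⟨C.rig q.1, by
    rw [← hc, ← C.h2]
    exact ⟨q.2.2, q.2.2⟩⟩
  h1 q := Subtype.ext (C.h1 q.1)
  h2 q := Subtype.ext (C.h2 q.1)
  h3 q := Subtype.ext (C.h3 q.1)
  h4 q := Subtype.ext (C.h4 q.1)
  h5 q := C.h5 q.1
  h6 q := C.h6 q.1

theorem lift_path {V E : Type} (s t : E → V) (c : V → Bool) :
    ∀ (L : List (E × Bool)) (u w : V) (hu : c u = false), IsPath s t u L w →
      (∀ x ∈ L, c (s x.1) = c (t x.1)) →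
      ∃ (hw : c w = false) (L' : List ({e // c (s e) = false ∧ c (t e) = false} × Bool)),
        L'.map (fun x => (x.1.1, x.2)) = L ∧
        IsPath (fun e : {e // c (s e) = false ∧ c (t e) = false} =>
          (⟨s e.1, e.2.1⟩ : {v // c v = false})) (fun e => ⟨t e.1, e.2.2⟩) ⟨u, hu⟩ L' ⟨w, hw⟩ := by
  intro L
  induction L with
  | nil =>
    intro u w hu h _
    have h' : u = w := h
    subst h'
    exact ⟨hu, [], rfl, rfl⟩
  | cons x L ih =>
    intro u w hu h hL
    obtain ⟨e, b⟩ := x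
    obtain ⟨h1, h2⟩ := h
    have hst := hL (e, b) List.mem_cons_self
    simp only at hst
    have hboth : c (s e) = false ∧ c (t e) = false := by
      cases b with
      | true =>
        simp only [if_true] at h1
        subst h1
        exact ⟨hu, by rw [← hst]; exact hu⟩
      | false =>
        simp only [Bool.false_eq_true, if_false] at h1
        subst h1
        exact ⟨by rw [hst]; exact hu, hu⟩
    have hu' : c (if b = true then t e else s e) = false := by
      split_ifs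
      · exact hboth.2
      · exact hboth.1
    obtain ⟨hw, L', hL', hp⟩ := ih _ w hu' h2 (fun x hx => hL x (List.mem_cons_of_mem _ hx))
    refine ⟨hw, (⟨e, hboth⟩, b) :: L', ?_, ?_, ?_⟩
    · rw [List.map_cons, hL']
    · apply Subtype.ext
      simp only
      rw [h1]
      split_ifs <;> rfl
    · have : (if b = true then (⟨t e, hboth.2⟩ : {v // c v = false}) else ⟨s e, hboth.1⟩) =
          ⟨if b = true then t e else s e, hu'⟩ := by
        apply Subtype.ext
        split_ifs <;> rfl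
      simp only
      rw [this]
      exact hp

theorem readW_lift {E E' α : Type} (l : E → α) (i : E' → E) (L' : List (E' × Bool))
    (L : List (E × Bool)) (h : L'.map (fun x => (i x.1, x.2)) = L) :
    readW (fun e => l (i e)) L' = readW l L := by
  subst h
  unfold readW
  rw [List.map_map]
  rfl

end Pool.Agent.Helper35_WH.H86

namespace Pool.Agent.Helper35_WH

open H86

theorem visit (h8 : NonBridgeStatement) (h9 : RemoveStatement) (h3 : ModelForestStatement)
    (_hs : SurjStatement) : VisitStatement := by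
  classical
  intro n X Y m hX e he
  obtain ⟨d, hdB, hdA⟩ := bridge h8 m hX e he
  -- normalise the colouring
  obtain ⟨c, hc0, hcB, hcA⟩ : ∃ c : m.C.V → Bool, c m.w0 = false ∧
      (∀ e', c (m.C.s₂ e') = c (m.C.t₂ e')) ∧
      ∀ e', c (m.C.s₁ e') ≠ c (m.C.t₁ e') ↔ m.C.Track e' e := by
    refine ⟨fun v => xor (d v) (d m.w0), ?_, ?_, ?_⟩
    · simp
    · intro e'
      change xor (d (m.C.s₂ e')) (d m.w0) = xor (d (m.C.t₂ e')) (d m.w0)
      rw [hdB]
    · intro e'
      rw [← hdA e']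
      change xor (d (m.C.s₁ e')) (d m.w0) ≠ xor (d (m.C.t₁ e')) (d m.w0) ↔
        d (m.C.s₁ e') ≠ d (m.C.t₁ e')
      cases d (m.C.s₁ e') <;> cases d (m.C.t₁ e') <;> cases d m.w0 <;> simp
  -- the path stays on the near side
  obtain ⟨hw1, hp', hp'map, hp'path⟩ := lift_path m.C.s₁ m.C.t₁ c m.hp m.w0 m.w1 hc0 m.hp_path (by
    rintro ⟨a, b⟩ hab
    by_contra hne
    exact he a b hab (track_symm m.C ((hcA a).mp hne)))
  obtain ⟨_, vp', vp'map, vp'path⟩ := lift_path m.C.s₂ m.C.t₂ c m.vp m.w1 m.w0 hw1 m.vp_path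
    (fun x _ => hcB x.1)
  have hfar : ∀ e₀ : m.C.A, c (m.C.s₁ e₀) = true → c (m.C.t₁ e₀) = true → ∃ d : m.C.V → Bool,
      (∀ e' : m.C.B, d (m.C.s₂ e') = d (m.C.t₂ e')) ∧
      ∀ e' : m.C.A, d (m.C.s₁ e') ≠ d (m.C.t₁ e') ↔
        ∀ f : m.C.A → Bool, (∀ q, f (m.C.bot q) = f (m.C.top q)) → f e' = f e₀ := by
    intro e₀ h1 _
    apply bridge h8 m hX e₀
    intro a b hab htr
    -- `a` is on the near side
    have hmem : (a, b) ∈ hp'.map (fun x => (x.1.1, x.2)) := by
      rw [hp'map]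
      exact hab
    obtain ⟨y, -, hy⟩ := List.mem_map.mp hmem
    have hya : y.1.1 = a := congrArg Prod.fst hy
    have h4 : c (m.C.s₁ a) = false := by
      rw [← hya]
      exact y.1.2.1
    have h5 := (track_pred m.C (fun x => c (m.C.s₁ x) = true) (fun q => by
      rw [m.C.h1, m.C.h3, hcB]) htr).mp h1
    rw [h4] at h5
    exact absurd h5 (by decide)
  have huniv : (subCx m.C c hcB).Univ
      (fun e' => m.eX (FreeGroup.of ((subCx m.C c hcB).l₁ e'))) (fun _ => 1) ⟨m.w0, hc0⟩ := by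
    refine h9 (Fin n) (Fin n) m.C m.F (fun a => m.eX (FreeGroup.of (m.C.l₁ a))) m.w0 m.univ
      (fun q => by rw [m.C.h5]) (h3 n X Y m) (fun e' => m.C.Track e' e) c ?_ ?_ hc0 hcB hcA hfar
      (subCx m.C c hcB) Subtype.val Subtype.val Subtype.val Subtype.val ⟨m.w0, hc0⟩
      Subtype.val_injective Subtype.val_injective Subtype.val_injective Subtype.val_injective
      ?_ ?_ ?_ ?_ (fun _ => rfl) (fun _ => rfl) (fun _ => rfl) (fun _ => rfl) (fun _ => rfl)
      (fun _ => rfl) (fun _ => rfl) (fun _ => rfl) rfl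
    · intro q
      exact ⟨fun h => track_trans m.C (track_symm m.C (track_bot_top m.C q)) h,
        fun h => track_trans m.C (track_bot_top m.C q) h⟩
    · intro a a' ha ha'
      exact track_trans m.C ha (track_symm m.C ha')
    · intro u
      exact ⟨fun ⟨u', hu'⟩ => hu' ▸ u'.2, fun h => ⟨⟨u, h⟩, rfl⟩⟩
    · intro u
      exact ⟨fun ⟨u', hu'⟩ => hu' ▸ u'.2, fun h => ⟨⟨u, h⟩, rfl⟩⟩
    · intro u
      exact ⟨fun ⟨u', hu'⟩ => hu' ▸ u'.2, fun h => ⟨⟨u, h⟩, rfl⟩⟩
    · intro u
      exact ⟨fun ⟨u', hu'⟩ => hu' ▸ u'.2, fun h => ⟨⟨u, h⟩, rfl⟩⟩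
  refine ⟨{
    F := m.F
    eX := m.eX
    eY := m.eY
    C := subCx m.C c hcB
    pos := fun v => m.pos v.1
    pos_inj := fun u w h => Subtype.ext (m.pos_inj h)
    pos₁ := fun e' => m.pos₁ e'.1
    pos₂ := fun e' => m.pos₂ e'.1
    inj₁ := fun a a' h h' => Subtype.ext (m.inj₁ a.1 a'.1 h (congrArg Subtype.val h'))
    inj₂ := fun a a' h h' => Subtype.ext (m.inj₂ a.1 a'.1 h (congrArg Subtype.val h'))
    injS := fun q q' h h' => Subtype.ext (m.injS q.1 q'.1 (congrArg Subtype.val h)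
      (congrArg Subtype.val h'))
    w0 := ⟨m.w0, hc0⟩
    w1 := ⟨m.w1, hw1⟩
    hp := hp'
    vp := vp'
    hp_path := hp'path
    vp_path := vp'path
    hp_read := (readW_lift m.C.l₁ Subtype.val hp' m.hp hp'map).trans m.hp_read
    vp_read := (readW_lift m.C.l₂ Subtype.val vp' m.vp vp'map).trans m.vp_read
    univ := huniv }, ?_⟩
  -- the size
  have hV : Fintype.card {v : m.C.V // c v = false} < Fintype.card m.C.V := by
    have h1 := (hcA e).mpr (track_refl m.C e)
    cases h5 : c (m.C.s₁ e) with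
    | true =>
      exact Fintype.card_subtype_lt (x := m.C.s₁ e) (by rw [h5]; decide)
    | false =>
      cases h6 : c (m.C.t₁ e) with
      | true => exact Fintype.card_subtype_lt (x := m.C.t₁ e) (by rw [h6]; decide)
      | false => rw [h5, h6] at h1; exact absurd rfl h1
  have hA : Fintype.card {a : m.C.A // c (m.C.s₁ a) = false ∧ c (m.C.t₁ a) = false} ≤
      Fintype.card m.C.A := Fintype.card_subtype_le _
  have hB : Fintype.card {a : m.C.B // c (m.C.s₂ a) = false ∧ c (m.C.t₂ a) = false} ≤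
      Fintype.card m.C.B := Fintype.card_subtype_le _
  have hS : Fintype.card {q : m.C.S // c (m.C.s₁ (m.C.bot q)) = false ∧
      c (m.C.t₁ (m.C.bot q)) = false} ≤ Fintype.card m.C.S := Fintype.card_subtype_le _
  have e1 : @Fintype.card (subCx m.C c hcB).V (subCx m.C c hcB).fV =
      Fintype.card {v : m.C.V // c v = false} := Fintype.card_congr (Equiv.refl _)
  have e2 : @Fintype.card (subCx m.C c hcB).A (subCx m.C c hcB).fA =
      Fintype.card {a : m.C.A // c (m.C.s₁ a) = false ∧ c (m.C.t₁ a) = false} :=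
    Fintype.card_congr (Equiv.refl _)
  have e3 : @Fintype.card (subCx m.C c hcB).B (subCx m.C c hcB).fB =
      Fintype.card {a : m.C.B // c (m.C.s₂ a) = false ∧ c (m.C.t₂ a) = false} :=
    Fintype.card_congr (Equiv.refl _)
  have e4 : @Fintype.card (subCx m.C c hcB).S (subCx m.C c hcB).fS =
      Fintype.card {q : m.C.S // c (m.C.s₁ (m.C.bot q)) = false ∧
        c (m.C.t₁ (m.C.bot q)) = false} := Fintype.card_congr (Equiv.refl _)
  unfold Model.size
  simp only
  omega

end Pool.Agent.Helper35_WH
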